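import Pool.Agent.U745.AF.Coh

/-!
# Extension of the base field
-/

set_option autoImplicit false

open CategoryTheory AlgebraicGeometry Limits Opposite CategoryTheory.Abelian

namespace Pool.Agent.U745.AF

open Pool.Agent.U745.FM

variable {Ω : Type} [Field Ω]

/-- the morphism of spectra of an inclusion of fields -/
noncomputable def specIncl {F F' : Subfield Ω} (h : F ≤ F') :
    Spec (CommRingCat.of F') ⟶ Spec (CommRingCat.of F) :=
  Spec.map (CommRingCat.ofHom (Subfield.inclusion h))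

theorem geomPoint_comp {F F' : Subfield Ω} (h : F ≤ F') :
    geomPoint F' ≫ specIncl h = geomPoint F := by
  unfold geomPoint specIncl
  rw [← Spec.map_comp, ← CommRingCat.ofHom_comp]
  congr 1

/-- the morphism of the spectrum of `Ω` of an automorphism -/
noncomputable def specAut (g : RingAut Ω) :
    Spec (CommRingCat.of Ω) ⟶ Spec (CommRingCat.of Ω) :=
  Spec.map (CommRingCat.ofHom (g : Ω →+* Ω))

theorem specAut_comp {F : Subfield Ω} (g : Gam F) : specAut g.1 ≫ geomPoint F = geomPoint F := by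
  unfold geomPoint specAut
  rw [← Spec.map_comp, ← CommRingCat.ofHom_comp]
  congr 2
  ext x
  exact g.2 x x.2

theorem variety_pullback {F F' : Subfield Ω} (h : F ≤ F') {Y : Scheme.{0}}
    (f : Y ⟶ Spec (CommRingCat.of F)) (hf : Variety f) :
    Variety (pullback.snd f (specIncl h)) := by
  obtain ⟨hf1, hf2, hf3⟩ := hf
  refine ⟨?_, ?_, ?_⟩
  · infer_instance
  · infer_instance
  · infer_instance

theorem fibreAut_fst {F : Subfield Ω} {Y : Scheme.{0}} (f : Y ⟶ Spec (CommRingCat.of F))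
    (g : Gam F) : fibreAut f g ≫ pullback.fst f (geomPoint F) = pullback.fst f (geomPoint F) := by
  unfold fibreAut
  exact pullback.lift_fst _ _ _

theorem fibreAut_snd {F : Subfield Ω} {Y : Scheme.{0}} (f : Y ⟶ Spec (CommRingCat.of F))
    (g : Gam F) : fibreAut f g ≫ pullback.snd f (geomPoint F) =
      pullback.snd f (geomPoint F) ≫ specAut g.1 := by
  unfold fibreAut specAut
  exact pullback.lift_snd _ _ _

/-- the isomorphism of the geometric fibres, as a pair of maps -/
theorem exists_maps' {F F' : Subfield Ω} (h : F ≤ F') {Y : Scheme.{0}}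
    (f : Y ⟶ Spec (CommRingCat.of F)) :
    ∃ (A : geomFibre (pullback.snd f (specIncl h)) ⟶ geomFibre f)
      (B : geomFibre f ⟶ geomFibre (pullback.snd f (specIncl h))), B ≫ A = 𝟙 (geomFibre f) ∧
      ∀ g : Gam F', B ≫ fibreAut (pullback.snd f (specIncl h)) g =
        fibreAut f ⟨g.1, Gam_mono h g.2⟩ ≫ B := by
  obtain ⟨A, B, hBA, hB⟩ := exists_maps f (specIncl h) (geomPoint F') (geomPoint F)
    (geomPoint_comp h)
  refine ⟨A, B, hBA, fun g => ?_⟩
  exact hB (specAut g.1) (specAut_comp g) _ _ (fibreAut_fst f ⟨g.1, Gam_mono h g.2⟩)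
      (fibreAut_snd f ⟨g.1, Gam_mono h g.2⟩) (fibreAut_fst (pullback.snd f (specIncl h)) g)
      (fibreAut_snd (pullback.snd f (specIncl h)) g)

variable {Λ : Type} [Field Λ] [TopologicalSpace Λ] [IsTopologicalRing Λ]

theorem transfer (n : ℕ) {X X' : Scheme.{0}} (B : X ⟶ X') {V : Type} [AddCommGroup V]
    (R : AddSubgroup (Coh Λ n X × V)) :
    ∃ R' : AddSubgroup (Coh Λ n X' × V), ∀ (c : Coh Λ n X') (v : V),
      (c, v) ∈ R' ↔ (cohPull n B c, v) ∈ R :=
  ⟨R.comap ((cohPullHom n B).prodMap (AddMonoidHom.id V)), fun _ _ => Iff.rfl⟩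

theorem cohPull_zero (n : ℕ) {X X' : Scheme.{0}} (B : X ⟶ X') :
    cohPull n B (0 : Coh Λ n X') = 0 := map_zero (cohPullHom n B)

theorem cohPull_inv (n : ℕ) {X X' : Scheme.{0}} (A : X' ⟶ X) (B : X ⟶ X') (h : B ≫ A = 𝟙 X)
    (c : Coh Λ n X) : cohPull n B (cohPull n A c) = c := by
  rw [← cohPull_comp, h, cohPull_id]

theorem cohPull_comm (n : ℕ) {X X' : Scheme.{0}} (B : X ⟶ X') (a : X ⟶ X) (b : X' ⟶ X')
    (h : B ≫ b = a ≫ B) (c : Coh Λ n X') :
    cohPull n B (cohPull n b c) = cohPull n a (cohPull n B c) := by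
  rw [← cohPull_comp, h, cohPull_comp]

/-- the restriction of a subquotient to the group of a larger field -/
theorem subquotient_res {F F' : Subfield Ω} (h : F ≤ F') (V : Type) [AddCommGroup V] [Module Λ V]
    (ρ : Representation Λ (Gam F) V) (hρ : Subquotient F V ρ) : Subquotient F' V (res h ρ) := by
  obtain ⟨Y, f, hf, n, R, h1, h2, h3, h4⟩ := hρ
  obtain ⟨A, B, hBA, hB⟩ := exists_maps' h f
  obtain ⟨R', hR'⟩ := transfer n B R
  refine ⟨_, pullback.snd f (specIncl h), variety_pullback h f hf, n, R', ?_, ?_, ?_, ?_⟩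
  · intro v
    obtain ⟨c, hc⟩ := h1 v
    refine ⟨cohPull n A c, (hR' _ _).2 ?_⟩
    rw [cohPull_inv n A B hBA c]
    exact hc
  · intro v hv
    refine h2 v ?_
    have h5 := (hR' _ _).1 hv
    rwa [cohPull_zero] at h5
  · intro a c v hc
    refine (hR' _ _).2 ?_
    rw [cohPull_scale]
    exact h3 a _ v ((hR' _ _).1 hc)
  · intro g c v hc
    refine (hR' _ _).2 ?_
    rw [cohPull_comm n B _ _ (hB g) c]
    exact h4 ⟨g.1, Gam_mono h g.2⟩ _ v ((hR' _ _).1 hc)

end Pool.Agent.U745.AF
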