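import Mathlib

set_option autoImplicit false

/-! # Transitivity of fibre products, with automorphisms -/

open CategoryTheory Limits

namespace Pool.Agent.U745.AF

universe v u

theorem exists_maps {C : Type u} [Category.{v} C] [HasPullbacks C] {Y S S' T : C} (f : Y ⟶ S)
    (w : S' ⟶ S) (p' : T ⟶ S') (p : T ⟶ S) (hp : p' ≫ w = p) :
    ∃ (A : pullback (pullback.snd f w) p' ⟶ pullback f p)
      (B : pullback f p ⟶ pullback (pullback.snd f w) p'), B ≫ A = 𝟙 _ ∧
      ∀ (a : T ⟶ T) (_ : a ≫ p' = p') (F : pullback f p ⟶ pullback f p)
        (F' : pullback (pullback.snd f w) p' ⟶ pullback (pullback.snd f w) p'),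
        F ≫ pullback.fst f p = pullback.fst f p →
        F ≫ pullback.snd f p = pullback.snd f p ≫ a →
        F' ≫ pullback.fst (pullback.snd f w) p' = pullback.fst (pullback.snd f w) p' →
        F' ≫ pullback.snd (pullback.snd f w) p' = pullback.snd (pullback.snd f w) p' ≫ a →
        B ≫ F' = F ≫ B := by
  subst hp
  let A : pullback (pullback.snd f w) p' ⟶ pullback f (p' ≫ w) :=
    pullback.lift (pullback.fst (pullback.snd f w) p' ≫ pullback.fst f w)
      (pullback.snd (pullback.snd f w) p') (by
        rw [Category.assoc, pullback.condition, ← Category.assoc, pullback.condition,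
          Category.assoc])
  let B : pullback f (p' ≫ w) ⟶ pullback (pullback.snd f w) p' :=
    pullback.lift (pullback.lift (pullback.fst f (p' ≫ w))
      (pullback.snd f (p' ≫ w) ≫ p') (by
        rw [Category.assoc]
        exact pullback.condition)) (pullback.snd f (p' ≫ w)) (by
        rw [pullback.lift_snd])
  have hA1 : A ≫ pullback.fst f (p' ≫ w) =
      pullback.fst (pullback.snd f w) p' ≫ pullback.fst f w := pullback.lift_fst _ _ _
  have hA2 : A ≫ pullback.snd f (p' ≫ w) = pullback.snd (pullback.snd f w) p' :=
    pullback.lift_snd _ _ _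
  have hB1 : B ≫ pullback.fst (pullback.snd f w) p' ≫ pullback.fst f w =
      pullback.fst f (p' ≫ w) := by
    rw [← Category.assoc, pullback.lift_fst, pullback.lift_fst]
  have hB2 : B ≫ pullback.fst (pullback.snd f w) p' ≫ pullback.snd f w =
      pullback.snd f (p' ≫ w) ≫ p' := by
    rw [← Category.assoc, pullback.lift_fst, pullback.lift_snd]
  have hB3 : B ≫ pullback.snd (pullback.snd f w) p' = pullback.snd f (p' ≫ w) :=
    pullback.lift_snd _ _ _
  refine ⟨A, B, ?_, ?_⟩
  · apply pullback.hom_ext
    · rw [Category.assoc, hA1, hB1, Category.id_comp]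
    · rw [Category.assoc, hA2, hB3, Category.id_comp]
  · intro a ha F F' h1 h2 h3 h4
    apply pullback.hom_ext
    · rw [Category.assoc, h3, Category.assoc]
      apply pullback.hom_ext
      · rw [Category.assoc, hB1, Category.assoc, Category.assoc, hB1, h1]
      · rw [Category.assoc, hB2, Category.assoc, Category.assoc, hB2, ← Category.assoc, h2,
          Category.assoc, ha]
    · rw [Category.assoc, h4, ← Category.assoc, hB3, Category.assoc, hB3, h2]

end Pool.Agent.U745.AF
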