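import Mathlib

set_option autoImplicit false

/-! # Determinants of the constituents of induced representations -/

namespace Pool.Agent.U745.AF

variable {Λ : Type} [Field Λ] {G : Type} [Group G]

/-- irreducible -/
def IrrR {K : Type} [Group K] {V : Type} [AddCommGroup V] [Module Λ V]
    (ρ : Representation Λ K V) : Prop :=
  (∃ v : V, v ≠ 0) ∧ ∀ W : Submodule Λ V, (∀ g, ∀ w ∈ W, ρ g w ∈ W) → W = ⊥ ∨ W = ⊤

open Classical in
/-- the determinant as a function on the large group -/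
noncomputable def dd {N : Subgroup G} {U : Type} [AddCommGroup U] [Module Λ U]
    (τ : Representation Λ N U) (n : G) : Λ :=
  if hn : n ∈ N then LinearMap.det (τ ⟨n, hn⟩) else 0

theorem dd_mem {N : Subgroup G} {U : Type} [AddCommGroup U] [Module Λ U]
    (τ : Representation Λ N U) {n : G} (hn : n ∈ N) : dd τ n = LinearMap.det (τ ⟨n, hn⟩) := by
  unfold dd
  rw [dif_pos hn]

/-- the sum of translates -/
noncomputable def phi {N H : Subgroup G} {V U : Type} [AddCommGroup V] [Module Λ V]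
    [AddCommGroup U] [Module Λ U] (ρ : Representation Λ H V) (j : U →ₗ[Λ] V) {k : ℕ}
    (l : Fin k → H) : (Fin k → U) →ₗ[Λ] V :=
  ∑ i, (ρ (l i)) ∘ₗ j ∘ₗ LinearMap.proj i

theorem phi_apply {N H : Subgroup G} {V U : Type} [AddCommGroup V] [Module Λ V]
    [AddCommGroup U] [Module Λ U] (ρ : Representation Λ H V) (j : U →ₗ[Λ] V) {k : ℕ}
    (l : Fin k → H) (u : Fin k → U) :
    phi (N := N) ρ j l u = ∑ i, ρ (l i) (j (u i)) := by
  unfold phi
  rw [LinearMap.sum_apply]
  rfl

/-- Clifford's theorem, on the level of determinants -/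
theorem clifford (N H : Subgroup G) [hNn : N.Normal] (hNH : N ≤ H) {V U : Type} [AddCommGroup V]
    [Module Λ V] [FiniteDimensional Λ V] [AddCommGroup U] [Module Λ U] [FiniteDimensional Λ U]
    (ρ : Representation Λ H V) (hρ : IrrR ρ) (τ : Representation Λ N U) (hτ : IrrR τ)
    (j : U →ₗ[Λ] V) (hj : Function.Injective j)
    (hje : ∀ (n : N) (u : U), j (τ n u) = ρ ⟨n, hNH n.2⟩ (j u)) :
    ∃ (k : ℕ) (l : Fin k → G), 0 < k ∧ ∀ n, ∀ hn : n ∈ N,
      LinearMap.det (ρ ⟨n, hNH hn⟩) = ∏ i, dd τ ((l i)⁻¹ * n * l i) := by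
  classical
  let P : ℕ → Prop := fun k => ∃ l : Fin k → H, Function.Injective (phi (N := N) ρ j l)
  have hP0 : P 0 := ⟨Fin.elim0, fun a b _ => Subsingleton.elim _ _⟩
  have hUpos : 0 < Module.finrank Λ U := by
    obtain ⟨u, hu⟩ := hτ.1
    have : Nontrivial U := ⟨u, 0, hu⟩
    exact Module.finrank_pos
  have hPb : ∀ k, P k → k ≤ Module.finrank Λ V := by
    rintro k ⟨l, hl⟩
    have h1 := LinearMap.finrank_le_finrank_of_injective hl
    rw [Module.finrank_pi_fintype] at h1
    simp only [Finset.sum_const, Finset.card_univ, Fintype.card_fin, smul_eq_mul] at h1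
    nlinarith
  set k := Nat.findGreatest P (Module.finrank Λ V) with hk
  have hPk : P k := Nat.findGreatest_spec (m := 0) (Nat.zero_le _) hP0
  have hPmax : ¬ P (k + 1) := by
    intro h
    exact Nat.findGreatest_is_greatest (k.lt_succ_self) (hPb _ h) h
  obtain ⟨l, hl⟩ := hPk
  set φ := phi (N := N) ρ j l with hφ
  let cj : Fin k → N → N := fun i n => ⟨((l i : H) : G)⁻¹ * n * (l i : H), by
    have := hNn.conj_mem n.1 n.2 ((l i : H) : G)⁻¹
    simpa using this⟩
  let act : N → ((Fin k → U) →ₗ[Λ] (Fin k → U)) := fun n =>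
    LinearMap.pi fun i => (τ (cj i n)) ∘ₗ LinearMap.proj i
  have hcomm : ∀ (n : N) (u : Fin k → U), ρ ⟨n, hNH n.2⟩ (φ u) = φ (act n u) := by
    intro n u
    rw [hφ, phi_apply, phi_apply, map_sum]
    refine Finset.sum_congr rfl fun i _ => ?_
    have h1 : (act n u) i = τ (cj i n) (u i) := rfl
    rw [h1, hje]
    have h2 : ρ ⟨n, hNH n.2⟩ (ρ (l i) (j (u i))) = (ρ (⟨n, hNH n.2⟩ * l i)) (j (u i)) := by
      rw [map_mul]
      rfl
    have h3 : ρ (l i) (ρ ⟨(cj i n : G), hNH (cj i n).2⟩ (j (u i))) =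
        (ρ (l i * ⟨(cj i n : G), hNH (cj i n).2⟩)) (j (u i)) := by
      rw [map_mul]
      rfl
    rw [h2, h3]
    congr 2
    apply Subtype.ext
    show (n : G) * (l i : H) = (l i : H) * (((l i : H) : G)⁻¹ * n * (l i : H))
    group
  have hMst : ∀ (n : N), ∀ v ∈ LinearMap.range φ, ρ ⟨n, hNH n.2⟩ v ∈ LinearMap.range φ := by
    rintro n _ ⟨u, rfl⟩
    rw [hcomm]
    exact ⟨_, rfl⟩
  have htr : ∀ (g : H) (u : U), ρ g (j u) ∈ LinearMap.range φ := by
    intro g
    let T : Submodule Λ U := (LinearMap.range φ).comap ((ρ g) ∘ₗ j)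
    have hT : ∀ (n : N), ∀ u ∈ T, τ n u ∈ T := by
      intro n u hu
      show ρ g (j (τ n u)) ∈ LinearMap.range φ
      rw [hje]
      have hmem : (g : G) * n * (g : G)⁻¹ ∈ N := hNn.conj_mem n.1 n.2 g
      have h1 : ρ g (ρ ⟨n, hNH n.2⟩ (j u)) = ρ ⟨(g : G) * n * (g : G)⁻¹, hNH hmem⟩ (ρ g (j u)) := by
        have e1 : ρ g (ρ ⟨n, hNH n.2⟩ (j u)) = (ρ (g * ⟨n, hNH n.2⟩)) (j u) := by
          rw [map_mul]
          rfl
        have e2 : ρ ⟨(g : G) * n * (g : G)⁻¹, hNH hmem⟩ (ρ g (j u)) =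
            (ρ (⟨(g : G) * n * (g : G)⁻¹, hNH hmem⟩ * g)) (j u) := by
          rw [map_mul]
          rfl
        rw [e1, e2]
        congr 2
        apply Subtype.ext
        show (g : G) * n = (g : G) * n * (g : G)⁻¹ * g
        group
      rw [h1]
      exact hMst ⟨_, hmem⟩ _ hu
    rcases hτ.2 T hT with h0 | h0
    · exfalso
      apply hPmax
      refine ⟨Fin.cons g l, ?_⟩
      rw [← LinearMap.ker_eq_bot, LinearMap.ker_eq_bot']
      intro u hu
      rw [phi_apply, Fin.sum_univ_succ] at hu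
      simp only [Fin.cons_zero, Fin.cons_succ] at hu
      have h1 : φ (fun i => u i.succ) = ∑ i : Fin k, ρ (l i) (j (u i.succ)) := phi_apply _ _ _ _
      rw [← h1] at hu
      have h2 : u 0 ∈ T := by
        refine ⟨-(fun i => u i.succ), ?_⟩
        rw [map_neg]
        show - φ (fun i => u i.succ) = ρ g (j (u 0))
        rw [neg_eq_iff_add_eq_zero, add_comm]
        exact hu
      rw [h0, Submodule.mem_bot] at h2
      rw [h2, map_zero, map_zero, zero_add] at hu
      have h3 : (fun i : Fin k => u i.succ) = 0 := hl (by rw [hu, map_zero])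
      funext i
      refine Fin.cases ?_ (fun i => ?_) i
      · exact h2
      · exact congrFun h3 i
    · intro u
      have h1 : u ∈ T := by
        rw [h0]
        exact Submodule.mem_top
      exact h1
  have htop : LinearMap.range φ = ⊤ := by
    let Q : Submodule Λ V := Submodule.span Λ {v | ∃ (g : H) (u : U), v = ρ g (j u)}
    have hQM : Q ≤ LinearMap.range φ := by
      rw [Submodule.span_le]
      rintro _ ⟨g, u, rfl⟩
      exact htr g u
    have hQst : ∀ g, ∀ w ∈ Q, ρ g w ∈ Q := by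
      intro g
      have h1 : Q ≤ Q.comap (ρ g) := by
        rw [Submodule.span_le]
        rintro _ ⟨g', u, rfl⟩
        refine Submodule.subset_span ⟨g * g', u, ?_⟩
        rw [map_mul]
        rfl
      exact fun w hw => h1 hw
    rcases hρ.2 Q hQst with h0 | h0
    · exfalso
      obtain ⟨u, hu⟩ := hτ.1
      have h1 : j u ∈ Q := Submodule.subset_span ⟨1, u, by rw [map_one]; rfl⟩
      rw [h0, Submodule.mem_bot] at h1
      exact hu (hj (by rw [h1, map_zero]))
    · rw [eq_top_iff, ← h0]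
      exact hQM
  have hsurj : Function.Surjective φ := LinearMap.range_eq_top.1 htop
  let e : (Fin k → U) ≃ₗ[Λ] V := LinearEquiv.ofBijective φ ⟨hl, hsurj⟩
  refine ⟨k, fun i => (l i : H), ?_, ?_⟩
  · rcases Nat.eq_zero_or_pos k with h0 | h0
    · exfalso
      obtain ⟨v, hv⟩ := hρ.1
      obtain ⟨u, rfl⟩ := hsurj v
      apply hv
      have : IsEmpty (Fin k) := by
        rw [h0]
        infer_instance
      have h1 : u = 0 := Subsingleton.elim _ _
      rw [h1, map_zero]
    · exact h0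
  · intro n hn
    have h1 : ρ ⟨n, hNH hn⟩ = (e : (Fin k → U) →ₗ[Λ] V) ∘ₗ (act ⟨n, hn⟩) ∘ₗ
        (e.symm : V →ₗ[Λ] (Fin k → U)) := by
      apply LinearMap.ext
      intro v
      obtain ⟨u, rfl⟩ := hsurj v
      have h2 : e.symm (φ u) = u := e.symm_apply_apply u
      show ρ ⟨n, hNH hn⟩ (φ u) = φ (act ⟨n, hn⟩ (e.symm (φ u)))
      rw [h2]
      exact hcomm ⟨n, hn⟩ u
    rw [h1, LinearMap.det_conj]
    have h3 : LinearMap.det (act ⟨n, hn⟩) = ∏ i, LinearMap.det (τ (cj i ⟨n, hn⟩)) :=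
      LinearMap.det_pi _
    rw [h3]
    refine Finset.prod_congr rfl fun i _ => ?_
    rw [dd_mem τ (cj i ⟨n, hn⟩).2]

/-- a nonzero representation contains an irreducible one -/
theorem exists_irrR {K : Type} [Group K] {V : Type} [AddCommGroup V] [Module Λ V]
    [FiniteDimensional Λ V] (ρ : Representation Λ K V) (hV : ∃ v : V, v ≠ 0) :
    ∃ W : Submodule Λ V, (∀ g, ∀ w ∈ W, ρ g w ∈ W) ∧ W ≠ ⊥ ∧
      ∀ T : Submodule Λ V, T ≤ W → (∀ g, ∀ w ∈ T, ρ g w ∈ T) → T = ⊥ ∨ T = W := by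
  classical
  let P : ℕ → Prop := fun d => ∃ W : Submodule Λ V, (∀ g, ∀ w ∈ W, ρ g w ∈ W) ∧ W ≠ ⊥ ∧
    Module.finrank Λ W = d
  have h0 : ∃ d, P d := by
    obtain ⟨v, hv⟩ := hV
    refine ⟨_, ⊤, fun _ _ _ => Submodule.mem_top, ?_, rfl⟩
    intro h
    apply hv
    have : v ∈ (⊤ : Submodule Λ V) := Submodule.mem_top
    rw [h, Submodule.mem_bot] at this
    exact this
  obtain ⟨W, h1, h2, h3⟩ := Nat.find_spec h0
  refine ⟨W, h1, h2, fun T hT hst => ?_⟩
  by_cases hT0 : T = ⊥
  · exact Or.inl hT0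
  · right
    have h4 : Nat.find h0 ≤ Module.finrank Λ T := Nat.find_min' h0 ⟨T, hst, hT0, rfl⟩
    rw [← h3] at h4
    exact Submodule.eq_of_le_of_finrank_le hT h4

theorem det_conj_rep {K : Type} [Group K] {V : Type} [AddCommGroup V] [Module Λ V]
    (ρ : Representation Λ K V) (a x : K) :
    LinearMap.det (ρ (a⁻¹ * x * a)) = LinearMap.det (ρ x) := by
  let δ : K →* Λ := (LinearMap.det (A := Λ) (M := V)).comp ρ
  show δ (a⁻¹ * x * a) = δ x
  rw [map_mul, map_mul, mul_right_comm, ← map_mul, inv_mul_cancel, map_one, one_mul]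

/-- **if an irreducible representation of a subgroup of finite index is a quotient of the restriction
of an irreducible representation, and has a determinant of finite order, so has the latter** -/
theorem det_finite (H : Subgroup G) [H.FiniteIndex] {V W : Type} [AddCommGroup V] [Module Λ V]
    [FiniteDimensional Λ V] [AddCommGroup W] [Module Λ W] [FiniteDimensional Λ W]
    (ρ : Representation Λ H V) (hρ : IrrR ρ) (σ : Representation Λ G W) (hσ : IrrR σ)
    (f : W →ₗ[Λ] V) (hf : Function.Surjective f) (hfe : ∀ (h : H) (w : W), f (σ h w) = ρ h (f w))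
    (m : ℕ) (hm : 0 < m) (hdet : ∀ h, LinearMap.det (ρ h) ^ m = 1) :
    ∃ M : ℕ, 0 < M ∧ ∀ g, LinearMap.det (σ g) ^ M = 1 := by
  classical
  let N : Subgroup G := H.normalCore
  have hNn : N.Normal := H.normalCore_normal
  have hNH : N ≤ H := H.normalCore_le
  have hNf : N.FiniteIndex := inferInstanceAs H.normalCore.FiniteIndex
  obtain ⟨U, hUst, hU0, hUmin⟩ := exists_irrR (σ.comp N.subtype) hσ.1
  have hUst' : ∀ n ∈ N, ∀ w ∈ U, σ n w ∈ U := fun n hn w hw => hUst ⟨n, hn⟩ w hw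
  -- a translate on which `f` is not zero
  obtain ⟨g, u0, hu0, hfu0⟩ : ∃ g : G, ∃ u ∈ U, f (σ g u) ≠ 0 := by
    by_contra hcon
    push Not at hcon
    let Q : Submodule Λ W := Submodule.span Λ {v | ∃ g : G, ∃ u ∈ U, v = σ g u}
    have hQk : Q ≤ LinearMap.ker f := by
      rw [Submodule.span_le]
      rintro _ ⟨g, u, hu, rfl⟩
      exact hcon g u hu
    have hQst : ∀ g, ∀ w ∈ Q, σ g w ∈ Q := by
      intro g
      have h1 : Q ≤ Q.comap (σ g) := by
        rw [Submodule.span_le]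
        rintro _ ⟨g', u, hu, rfl⟩
        refine Submodule.subset_span ⟨g * g', u, hu, ?_⟩
        rw [map_mul]
        rfl
      exact fun w hw => h1 hw
    rcases hσ.2 Q hQst with h0 | h0
    · apply hU0
      rw [eq_bot_iff]
      intro u hu
      have h1 : u ∈ Q := Submodule.subset_span ⟨1, u, hu, by rw [map_one]; rfl⟩
      rwa [h0] at h1
    · obtain ⟨v, hv⟩ := hρ.1
      obtain ⟨w, rfl⟩ := hf v
      apply hv
      have h1 : w ∈ Q := by
        rw [h0]
        exact Submodule.mem_top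
      exact hQk h1
  -- the twisted representation on `U`
  have hcm : ∀ n : N, g⁻¹ * n * g ∈ N := by
    intro n
    have := hNn.conj_mem n.1 n.2 g⁻¹
    simpa using this
  let τ : Representation Λ N U :=
    { toFun := fun n => (σ (g⁻¹ * n * g)).restrict (fun w hw => hUst' _ (hcm n) w hw)
      map_one' := by
        apply LinearMap.ext
        intro u
        apply Subtype.ext
        show σ (g⁻¹ * 1 * g) u = u
        rw [mul_one, inv_mul_cancel, map_one]
        rfl
      map_mul' := by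
        intro a b
        apply LinearMap.ext
        intro u
        apply Subtype.ext
        show σ (g⁻¹ * (a * b : N) * g) u = σ (g⁻¹ * a * g) (σ (g⁻¹ * b * g) u)
        have h1 : g⁻¹ * ((a * b : N) : G) * g = (g⁻¹ * a * g) * (g⁻¹ * b * g) := by
          rw [Subgroup.coe_mul]
          group
        rw [h1, map_mul]
        rfl }
  have hτval : ∀ (n : N) (u : U), ((τ n u : U) : W) = σ (g⁻¹ * n * g) u := fun _ _ => rfl
  have hτ : IrrR τ := by
    refine ⟨⟨⟨u0, hu0⟩, ?_⟩, fun T hT => ?_⟩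
    · intro h
      apply hfu0
      have h1 : u0 = 0 := congrArg Subtype.val h
      rw [h1, map_zero, map_zero]
    · have h1 := hUmin (T.map U.subtype) (by
        rintro _ ⟨u, -, rfl⟩
        exact u.2) (by
        rintro n _ ⟨u, hu, rfl⟩
        have hmem : g * n * g⁻¹ ∈ N := hNn.conj_mem n.1 n.2 g
        refine ⟨τ ⟨_, hmem⟩ u, hT _ u hu, ?_⟩
        show σ (g⁻¹ * (g * n * g⁻¹) * g) u = σ n u
        congr 2
        group)
      rcases h1 with h1 | h1
      · left
        rw [eq_bot_iff]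
        intro u hu
        have h2 : (u : W) ∈ T.map U.subtype := ⟨u, hu, rfl⟩
        rw [h1, Submodule.mem_bot] at h2
        exact (Submodule.mem_bot Λ).2 (Subtype.ext h2)
      · right
        rw [eq_top_iff]
        intro u _
        have h2 : (u : W) ∈ T.map U.subtype := by
          rw [h1]
          exact u.2
        obtain ⟨u', hu', h3⟩ := h2
        have h4 : u' = u := Subtype.ext h3
        rwa [← h4]
  let jW : U →ₗ[Λ] W := (σ g) ∘ₗ U.subtype
  have hjWe : ∀ (n : N) (u : U), jW (τ n u) = σ n (jW u) := by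
    intro n u
    show σ g (σ (g⁻¹ * n * g) u) = σ n (σ g u)
    have h1 : σ g (σ (g⁻¹ * n * g) u) = σ (g * (g⁻¹ * n * g)) u :=
      (LinearMap.congr_fun (map_mul σ g (g⁻¹ * n * g)) _).symm
    have h2 : σ n (σ g u) = σ (n * g) u := (LinearMap.congr_fun (map_mul σ (n : G) g) _).symm
    rw [h1, h2]
    congr 2
    group
  have hjW : Function.Injective jW := by
    intro a b hab
    have h1 : σ g⁻¹ (jW a) = σ g⁻¹ (jW b) := by rw [hab]
    have h2 : ∀ c : U, σ g⁻¹ (jW c) = c := by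
      intro c
      show σ g⁻¹ (σ g c) = c
      have h3 : σ g⁻¹ (σ g c) = σ (g⁻¹ * g) c := by
        rw [map_mul]
        rfl
      rw [h3, inv_mul_cancel, map_one]
      rfl
    rw [h2, h2] at h1
    exact Subtype.ext h1
  let jV : U →ₗ[Λ] V := f ∘ₗ jW
  have hjVe : ∀ (n : N) (u : U), jV (τ n u) = ρ ⟨n, hNH n.2⟩ (jV u) := by
    intro n u
    show f (jW (τ n u)) = _
    rw [hjWe]
    exact hfe ⟨n, hNH n.2⟩ _
  have hjV : Function.Injective jV := by
    have h1 := hτ.2 (LinearMap.ker jV) (by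
      intro n u hu
      show jV (τ n u) = 0
      have h2 : jV u = 0 := hu
      rw [hjVe, h2, map_zero])
    rcases h1 with h1 | h1
    · exact LinearMap.ker_eq_bot.1 h1
    · exfalso
      have h2 : (⟨u0, hu0⟩ : U) ∈ LinearMap.ker jV := by
        rw [h1]
        exact Submodule.mem_top
      exact hfu0 h2
  obtain ⟨k, l, hk, hl⟩ := clifford N H hNH ρ hρ τ hτ jV hjV hjVe
  have hσt : IrrR (σ.comp (⊤ : Subgroup G).subtype) := by
    refine ⟨hσ.1, fun T hT => hσ.2 T fun x w hw => ?_⟩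
    exact hT ⟨x, Subgroup.mem_top x⟩ w hw
  obtain ⟨k', l', hk', hl'⟩ := clifford N ⊤ le_top (σ.comp (⊤ : Subgroup G).subtype) hσt τ hτ jW hjW
    (fun n u => hjWe n u)
  have hl'' : ∀ n ∈ N, LinearMap.det (σ n) = ∏ i, dd τ ((l' i)⁻¹ * n * l' i) :=
    fun n hn => hl' n hn
  -- the function on the quotient
  letI : Fintype (G ⧸ N) := Fintype.ofFinite _
  let F : G → G → Λ := fun n x => dd τ (x⁻¹ * n * x)
  have hFinv : ∀ n ∈ N, ∀ x : G, ∀ ν ∈ N, F n (x * ν) = F n x := by
    intro n hn x ν hν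
    show dd τ ((x * ν)⁻¹ * n * (x * ν)) = dd τ (x⁻¹ * n * x)
    have hx : x⁻¹ * n * x ∈ N := by
      have := hNn.conj_mem n hn x⁻¹
      simpa using this
    have h1 : (x * ν)⁻¹ * n * (x * ν) = ν⁻¹ * (x⁻¹ * n * x) * ν := by group
    have h2 : ν⁻¹ * (x⁻¹ * n * x) * ν ∈ N := N.mul_mem (N.mul_mem (N.inv_mem hν) hx) hν
    rw [h1, dd_mem τ h2, dd_mem τ hx]
    have h3 : (⟨ν⁻¹ * (x⁻¹ * n * x) * ν, h2⟩ : N) = (⟨ν, hν⟩ : N)⁻¹ * ⟨x⁻¹ * n * x, hx⟩ * ⟨ν, hν⟩ := rfl
    rw [h3, det_conj_rep]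
  let Fb : G → (G ⧸ N) → Λ := fun n q => F n q.out
  have hFb : ∀ n ∈ N, ∀ x : G, F n x = Fb n (x : G ⧸ N) := by
    intro n hn x
    obtain ⟨ν, hν⟩ := QuotientGroup.mk_out_eq_mul N x
    show F n x = F n (Quotient.out (x : G ⧸ N))
    have h2 : (Quotient.out (x : G ⧸ N) : G) = x * ν := hν
    rw [h2, hFinv n hn x ν ν.2]
  let P : G → Λ := fun n => ∏ q : G ⧸ N, Fb n q
  have hP : ∀ n ∈ N, ∀ a : G, ∏ q : G ⧸ N, F n (q.out * a) = P n := by
    intro n hn a
    have h1 : ∀ q : G ⧸ N, F n (q.out * a) = Fb n (q * (a : G ⧸ N)) := by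
      intro q
      rw [hFb n hn]
      congr 1
      rw [QuotientGroup.mk_mul, QuotientGroup.out_eq']
    rw [Finset.prod_congr rfl fun q _ => h1 q]
    exact Fintype.prod_equiv (Equiv.mulRight (a : G ⧸ N)) _ _ fun q => rfl
  have hconj : ∀ n ∈ N, ∀ x : G, x⁻¹ * n * x ∈ N := by
    intro n hn x
    have := hNn.conj_mem n hn x⁻¹
    simpa using this
  have hPfin : ∀ n ∈ N, P n ^ (k * m) = 1 := by
    intro n hn
    have h1 : ∀ x : G, (∏ i, F n (x * l i)) ^ m = 1 := by
      intro x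
      have h2 := hdet ⟨_, hNH (hconj n hn x)⟩
      rw [hl _ (hconj n hn x)] at h2
      have h3 : ∀ i, dd τ ((l i)⁻¹ * (x⁻¹ * n * x) * l i) = F n (x * l i) := by
        intro i
        show _ = dd τ ((x * l i)⁻¹ * n * (x * l i))
        congr 1
        group
      rwa [Finset.prod_congr rfl fun i _ => h3 i] at h2
    have h2 : ∏ q : G ⧸ N, (∏ i, F n (q.out * l i)) ^ m = 1 :=
      Finset.prod_eq_one fun q _ => h1 _
    rw [Finset.prod_pow, Finset.prod_comm, Finset.prod_congr rfl fun i _ => hP n hn (l i),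
      Finset.prod_const, Finset.card_univ, Fintype.card_fin, ← pow_mul] at h2
    exact h2
  have hσn : ∀ n ∈ N, LinearMap.det (σ n) ^ Fintype.card (G ⧸ N) = P n ^ k' := by
    intro n hn
    have h1 : ∀ x : G, LinearMap.det (σ n) = ∏ i, F n (x * l' i) := by
      intro x
      have h2 : LinearMap.det (σ n) = LinearMap.det (σ (x⁻¹ * n * x)) := by
        rw [det_conj_rep]
      rw [h2, hl'' _ (hconj n hn x)]
      refine Finset.prod_congr rfl fun i _ => ?_
      show _ = dd τ ((x * l' i)⁻¹ * n * (x * l' i))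
      congr 1
      group
    have h2 : ∏ q : G ⧸ N, LinearMap.det (σ n) = ∏ q : G ⧸ N, ∏ i, F n (q.out * l' i) :=
      Finset.prod_congr rfl fun q _ => h1 _
    rw [Finset.prod_comm, Finset.prod_congr rfl fun i _ => hP n hn (l' i)] at h2
    simpa using h2
  have hidx : 0 < N.index := Nat.pos_of_ne_zero hNf.index_ne_zero
  have hcard : 0 < Fintype.card (G ⧸ N) := Fintype.card_pos
  refine ⟨N.index * (Fintype.card (G ⧸ N) * (k * m)), by positivity, fun g => ?_⟩
  have h1 : g ^ N.index ∈ N := N.pow_index_mem g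
  have h3 : LinearMap.det (σ g) ^ N.index = LinearMap.det (σ (g ^ N.index)) := by
    rw [map_pow, map_pow]
  rw [pow_mul, h3, pow_mul, hσn _ h1, ← pow_mul, mul_comm k', pow_mul, hPfin _ h1, one_pow]

end Pool.Agent.U745.AF
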