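import Pool.Agent.U745.FM.Origin
import Pool.Agent.U745.AF.Cat

/-!
# Subquotients of the cohomology of varieties, and extension of the base field
-/

set_option autoImplicit false

open CategoryTheory AlgebraicGeometry Limits Opposite CategoryTheory.Abelian

namespace Pool.Agent.U745.AF

open Pool.Agent.U745.FM

variable {Ω : Type} [Field Ω]

/-- `f : Y ⟶ Spec F` is separated and of finite type. -/
def Variety {F : Subfield Ω} {Y : Scheme.{0}} (f : Y ⟶ Spec (CommRingCat.of F)) : Prop :=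
  IsSeparated f ∧ LocallyOfFiniteType f ∧ QuasiCompact f

variable {Λ : Type} [Field Λ] [TopologicalSpace Λ] [IsTopologicalRing Λ]

/-- The representation `ρ` of `Gam F` is a subquotient of `H^n(Y_Ω, Λ)` for some separated scheme `Y` of
finite type over `F` and some `n`: the set `R` of pairs is the graph of a surjection onto `V` of a
subgroup of `H^n(Y_Ω, Λ)`, it is stable under `Λ` and under `Gam F`. -/
def Subquotient (F : Subfield Ω) (V : Type) [AddCommGroup V] [Module Λ V]
    (ρ : Representation Λ (Gam F) V) : Prop :=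
  ∃ (Y : Scheme.{0}) (f : Y ⟶ Spec (CommRingCat.of F)), Variety f ∧
    ∃ (n : ℕ) (R : AddSubgroup (Coh Λ n (geomFibre f) × V)),
      (∀ v, ∃ c, (c, v) ∈ R) ∧ (∀ v, (0, v) ∈ R → v = 0) ∧
      (∀ (a : Λ) (c v), (c, v) ∈ R → (cohScale n a c, a • v) ∈ R) ∧
      ∀ (g : Gam F) (c v), (c, v) ∈ R → (cohPull n (fibreAut f g) c, ρ g v) ∈ R

theorem cohPull_comp (n : ℕ) {X Y Z : Scheme.{0}} (f : X ⟶ Y) (g : Y ⟶ Z) (c : Coh Λ n Z) :
    cohPull n (f ≫ g) c = cohPull n f (cohPull n g c) := by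
  have h1 : (Ext.mk₀ (freeSheaf.map (f ≫ g))) =
      (Ext.mk₀ (freeSheaf.map f)).comp (Ext.mk₀ (freeSheaf.map g)) (zero_add 0) := by
    rw [Functor.map_comp, Ext.mk₀_comp_mk₀]
  unfold cohPull
  rw [h1]
  exact Ext.comp_assoc _ _ _ (zero_add 0) (zero_add n) (by omega)

theorem cohPull_id (n : ℕ) {X : Scheme.{0}} (c : Coh Λ n X) : cohPull n (𝟙 X) c = c := by
  unfold cohPull
  rw [CategoryTheory.Functor.map_id]
  exact Ext.mk₀_id_comp _

theorem cohPull_add (n : ℕ) {X Y : Scheme.{0}} (f : X ⟶ Y) (c d : Coh Λ n Y) :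
    cohPull n f (c + d) = cohPull n f c + cohPull n f d := by
  unfold cohPull
  exact Ext.comp_add _ _ _ _

/-- the pull-back as a homomorphism -/
noncomputable def cohPullHom (n : ℕ) {X Y : Scheme.{0}} (f : X ⟶ Y) : Coh Λ n Y →+ Coh Λ n X :=
  AddMonoidHom.mk' (cohPull n f) (cohPull_add n f)

theorem cohPull_scale (n : ℕ) {X Y : Scheme.{0}} (f : X ⟶ Y) (a : Λ) (c : Coh Λ n Y) :
    cohPull n f (cohScale n a c) = cohScale n a (cohPull n f c) := by
  unfold cohPull cohScale
  exact (Ext.comp_assoc (Ext.mk₀ (freeSheaf.map f)) c (Ext.mk₀ (coeffScale a)) (zero_add n)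
    (add_zero n) (by omega)).symm

end Pool.Agent.U745.AF
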