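import Pool.Agent.U745.AF.Step
import Pool.Agent.U745.AF.Clifford

set_option autoImplicit false

/-! # Reduction to affine spaces: representations -/

namespace Pool.Agent.U745.AF

open Polynomial Pool.Agent.U745.FM

variable {Ω : Type} [Field Ω] {Λ : Type} [Field Λ]

/-- the determinant has finite order -/
def DetFinite {F : Subfield Ω} {V : Type} [AddCommGroup V] [Module Λ V]
    (ρ : Representation Λ (Gam F) V) : Prop :=
  ∃ m : ℕ, 0 < m ∧ ∀ g, LinearMap.det (ρ g) ^ m = 1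

theorem fracOf_empty {k : Subfield Ω} {s : Set Ω} : FracOf (ringAdj k s) (fieldAdj k s) :=
  fracOf_adj k s

/-- spreading out finitely many separable elements -/
theorem spread_many {R : Subring Ω} {F : Subfield Ω} (h : FracOf R F) (s : Finset Ω)
    (hs : ∀ x ∈ s, IsSeparable F x) :
    ∃ a ∈ R, a ≠ 0 ∧ ∀ R' : Subring Ω, (∀ y ∈ R, IsIntegral R' y) → IsIntegral R' a⁻¹ →
      (∀ y ∈ s, IsIntegral R' y) ∧
      ∀ P : Ideal (integralClosure R' Ω), P.IsPrime → ∀ g : RingAut Ω, InInertia R' P g →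
        g ∈ Gam F → ∀ y ∈ s, g y = y := by
  classical
  induction s using Finset.induction_on with
  | empty =>
    exact ⟨1, R.one_mem, one_ne_zero, fun R' _ _ => ⟨by simp, fun _ _ _ _ _ => by simp⟩⟩
  | insert x s hx ih =>
    obtain ⟨a, ha, ha0, ih⟩ := ih fun y hy => hs y (Finset.mem_insert_of_mem hy)
    obtain ⟨b, hb, hb0, hb2⟩ := spread_one h ∅ (by simp) x (hs x (Finset.mem_insert_self _ _))
    refine ⟨a * b, R.mul_mem ha hb, mul_ne_zero ha0 hb0, fun R' hR' hi => ?_⟩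
    have hia : IsIntegral R' a⁻¹ := by
      have h1 : a⁻¹ = b * (a * b)⁻¹ := by
        field_simp
      rw [h1]
      exact (hR' b hb).mul hi
    have hib : IsIntegral R' b⁻¹ := by
      have h1 : b⁻¹ = a * (a * b)⁻¹ := by
        field_simp
      rw [h1]
      exact (hR' a ha).mul hi
    obtain ⟨h1, h2⟩ := ih R' hR' hia
    obtain ⟨-, h3, h4⟩ := hb2 R' hR' hib
    refine ⟨?_, ?_⟩
    · intro y hy
      rcases Finset.mem_insert.1 hy with rfl | hy
      · exact h3
      · exact h1 y hy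
    · intro P hP g hg hgF y hy
      rcases Finset.mem_insert.1 hy with rfl | hy
      · exact h4 P hP g hg hgF
      · exact h2 P hP g hg hgF y hy

/-- the elements of a finite field are separable over every field -/
theorem finite_sep {k F : Subfield Ω} (hk : (k : Set Ω).Finite) : ∀ x ∈ k, IsSeparable F x := by
  classical
  intro x hx
  haveI : Finite k := hk
  letI : Fintype k := Fintype.ofFinite k
  set q := Fintype.card k with hq
  have h1 : x ^ q = x := by
    have h2 := FiniteField.pow_card (⟨x, hx⟩ : k)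
    exact congrArg Subtype.val h2
  have h0 : (q : Ω) = 0 := by
    have h2 : ((q : ℕ) : k) = 0 := FiniteField.cast_card_eq_zero k
    have h3 := congrArg (Subtype.val : k → Ω) h2
    simpa using h3
  refine separable_of_root (X ^ q - X) (fun i => ?_) ?_ ?_
  · have h2 : (X ^ q - X : Polynomial Ω) = (X ^ q - X : Polynomial F).map (algebraMap F Ω) := by
      simp
    rw [h2, coeff_map]
    exact ((X ^ q - X : Polynomial F).coeff i).2
  · simp [h1]
  · rw [derivative_sub, derivative_X_pow, derivative_X, h0]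
    simp

theorem subgroupOf_finiteIndex {F0 F : Subfield Ω} (s : Finset Ω)
    (hs : ∀ x ∈ s, IsAlgebraic F0 x) (hF : F = fieldAdj F0 (s : Set Ω)) :
    ((Gam F).subgroupOf (Gam F0)).FiniteIndex := by
  classical
  obtain ⟨D, hD⟩ := finite_cosets s hs
  rw [← hF] at hD
  have hfin : Finite ((Gam F0) ⧸ (Gam F).subgroupOf (Gam F0)) := by
    have hsur : Function.Surjective
        (fun d : D => ((d.1⁻¹ : Gam F0) : (Gam F0) ⧸ (Gam F).subgroupOf (Gam F0))) := by
      intro q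
      obtain ⟨g, rfl⟩ := QuotientGroup.mk_surjective q
      obtain ⟨d, hd, hd2⟩ := hD g⁻¹
      refine ⟨⟨d, hd⟩, ?_⟩
      rw [QuotientGroup.eq]
      rw [Subgroup.mem_subgroupOf]
      show ((d⁻¹)⁻¹ * g : Gam F0).1 ∈ Gam F
      have h1 := (Gam F).inv_mem hd2
      have h2 : (((g⁻¹ : Gam F0)).1 * d.1⁻¹)⁻¹ = ((d⁻¹)⁻¹ * g : Gam F0).1 := by
        show (g.1⁻¹ * d.1⁻¹)⁻¹ = (d.1⁻¹)⁻¹ * g.1
        group
      rwa [h2] at h1
    exact Finite.of_surjective _ hsur
  exact Subgroup.finiteIndex_of_finite_quotient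

/-- **reduction to affine space over the prime field** -/
theorem reduce (p : ℕ) [Fact p.Prime] [CharP Ω p] [TopologicalSpace Λ] [IsTopologicalRing Λ]
    {k F : Subfield Ω} (hk : (k : Set Ω).Finite) {d : ℕ} (t : Fin d → Ω) (θ : Ω)
    (ht : AlgebraicIndependent k t) (hθ : IsSeparable (fieldAdj k (Set.range t)) θ)
    (hF : F = fieldAdj k (insert θ (Set.range t))) {V : Type} [AddCommGroup V] [Module Λ V]
    [FiniteDimensional Λ V] (ρ : Representation Λ (Gam F) V) (hρ : Irr ρ) (hc : Cont ρ)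
    (hd : DetFinite ρ) (s : Finset Ω) (hs : F = fieldAdj k (s : Set Ω))
    (hl : Lisse (ringAdj k (s : Set Ω)) ρ) :
    ∃ (y : Fin d → Ω) (hy : fieldAdj ⊥ (Set.range y) ≤ F), AlgebraicIndependent (⊥ : Subfield Ω) y ∧
      (∀ x ∈ F, IsSeparable (fieldAdj ⊥ (Set.range y)) x) ∧
      (∀ P : Ideal (integralClosure (ringAdj ⊥ (Set.range y)) Ω), P.IsPrime →
        ∀ g ∈ Gam (fieldAdj ⊥ (Set.range y)), InInertia (ringAdj ⊥ (Set.range y)) P g → g ∈ Gam F) ∧
      ∃ (W : Type) (_ : AddCommGroup W) (_ : Module Λ W) (_ : FiniteDimensional Λ W)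
        (σ : Representation Λ (Gam (fieldAdj ⊥ (Set.range y))) W), Irr σ ∧ Cont σ ∧ DetFinite σ ∧
        Lisse (ringAdj ⊥ (Set.range y)) σ ∧
        ∃ f : W →ₗ[Λ] V, Function.Surjective f ∧ Equi (res hy σ) ρ f := by
  classical
  have htb : AlgebraicIndependent (⊥ : Subfield Ω) t := by
    letI : Algebra (⊥ : Subfield Ω) k := (Subfield.inclusion bot_le).toAlgebra
    haveI : IsScalarTower (⊥ : Subfield Ω) k Ω := IsScalarTower.of_algebraMap_eq fun _ => rfl
    exact ht.restrictScalars (algebraMap (⊥ : Subfield Ω) k).injective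
  set F0 := fieldAdj (⊥ : Subfield Ω) (Set.range t) with hF0
  -- everything is separable over `F0`
  have hself : ∀ x ∈ F0, IsSeparable F0 x := fun x hx =>
    isSeparable_algebraMap (F := F0) (K := Ω) ⟨x, hx⟩
  have hksep : ∀ x ∈ k, IsSeparable F0 x := finite_sep hk
  have htsep : ∀ x ∈ Set.range t, IsSeparable F0 x := fun x hx => hself x (mem_fieldAdj hx)
  have hktsep := fieldAdj_sep hksep htsep
  have hF0kt : F0 ≤ fieldAdj k (Set.range t) := by
    rw [hF0, fieldAdj_le]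
    exact ⟨bot_le, fun x hx => mem_fieldAdj hx⟩
  have hθsep : IsSeparable F0 θ := sep_trans hF0kt hktsep hθ
  have hFsep : ∀ x ∈ F, IsSeparable F0 x := by
    rw [hF]
    refine fieldAdj_sep hksep ?_
    intro x hx
    rcases Set.mem_insert_iff.1 hx with rfl | hx
    · exact hθsep
    · exact htsep x hx
  let S : Finset Ω := s ∪ hk.toFinset
  have hSF : ∀ x ∈ S, x ∈ F := by
    intro x hx
    rw [hs]
    rcases Finset.mem_union.1 hx with hx | hx
    · exact mem_fieldAdj hx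
    · exact le_fieldAdj _ _ (hk.mem_toFinset.1 hx)
  obtain ⟨a, ha, ha0, hsp⟩ := spread_many (fracOf_adj (⊥ : Subfield Ω) (Set.range t)) S
    fun x hx => hFsep x (hSF x hx)
  obtain ⟨y, hyi, hyF, hysep, hyint, haint, hin⟩ := spaceP p (⊥ : Subfield Ω) d t htb a ha ha0
  set R' := ringAdj (⊥ : Subfield Ω) (Set.range y) with hR'
  set F1 := fieldAdj (⊥ : Subfield Ω) (Set.range y) with hF1
  have hF0F : F0 ≤ F := by
    rw [hF0, fieldAdj_le]
    refine ⟨bot_le, fun x hx => ?_⟩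
    rw [hF]
    exact mem_fieldAdj (Set.mem_insert_of_mem _ hx)
  have hF1F : F1 ≤ F := by
    rw [hF1, fieldAdj_le]
    refine ⟨bot_le, ?_⟩
    rintro _ ⟨i, rfl⟩
    exact hF0F (hyF i)
  have hRR' : ∀ z ∈ ringAdj (⊥ : Subfield Ω) (Set.range t), IsIntegral R' z := by
    refine ringAdj_integral (fun z hz => isIntegral_mem (subset_ringAdj _ _ (Or.inl hz))) ?_
    rintro _ ⟨i, rfl⟩
    exact hyint i
  obtain ⟨hSi, hSin⟩ := hsp R' hRR' haint
  have hR'F1 : ∀ x ∈ R', x ∈ F1 := fun x hx => ringAdj_sub_fieldAdj _ _ hx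
  have hSalg : ∀ x ∈ S, IsAlgebraic F1 x := fun x hx =>
    alg_of_ring (R := R') hR'F1 (hSi x hx).isAlgebraic
  have hkS : ∀ x ∈ k, x ∈ S := fun x hx =>
    Finset.mem_union_right _ (hk.mem_toFinset.2 hx)
  have hsS : ∀ x ∈ s, x ∈ S := fun x hx => Finset.mem_union_left _ hx
  have hFS : F = fieldAdj F1 (S : Set Ω) := by
    apply le_antisymm
    · rw [hs, fieldAdj_le]
      exact ⟨fun x hx => mem_fieldAdj (hkS x hx), fun x hx => mem_fieldAdj (hsS x hx)⟩
    · rw [fieldAdj_le]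
      exact ⟨hF1F, fun x hx => hSF x hx⟩
  obtain ⟨W, i1, i2, i3, σ, hσ, ⟨f, hf, hfe⟩, hσc, hσl⟩ := exists_induced S hSalg hFS hF1F ρ hρ
  have hinF : ∀ P : Ideal (integralClosure R' Ω), P.IsPrime → ∀ g ∈ Gam F1, InInertia R' P g →
      g ∈ Gam F := by
    intro P hP g hgF1 hg
    have h1 := hin P hP g hg hgF1
    have h2 : g ∈ Gam F0 := by
      rw [hF0, mem_Gam_fieldAdj]
      refine ⟨fun x hx => hgF1 x (le_fieldAdj _ _ hx), ?_⟩
      rintro _ ⟨i, rfl⟩
      exact h1 i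
    have h3 := hSin P hP g hg h2
    rw [hs, mem_Gam_fieldAdj]
    exact ⟨fun x hx => h3 x (hkS x hx), fun x hx => h3 x (hsS x hx)⟩
  refine ⟨y, hF1F, hyi, ?_, hinF, W, i1, i2, i3, σ, hσ, hσc hc, ?_, ?_, f, hf, hfe⟩
  · intro x hx
    have h1 : F1 ≤ fieldAdj F1 (Set.range t) := le_fieldAdj _ _
    have h2 : F0 ≤ fieldAdj F1 (Set.range t) := by
      rw [hF0, fieldAdj_le]
      exact ⟨bot_le, fun z hz => mem_fieldAdj hz⟩
    refine sep_trans h1 (fieldAdj_sep (fun z hz => ?_) ?_) (sep_mono h2 (hFsep x hx))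
    · exact isSeparable_algebraMap (F := F1) (K := Ω) ⟨z, hz⟩
    · rintro _ ⟨i, rfl⟩
      exact hysep i
  · obtain ⟨m, hm, hdet⟩ := hd
    haveI := subgroupOf_finiteIndex S hSalg hFS
    let H := (Gam F).subgroupOf (Gam F1)
    let ρ' : Representation Λ H V := ρ.comp
      { toFun := fun h : H => (⟨h.1.1, h.2⟩ : Gam F)
        map_one' := rfl
        map_mul' := fun _ _ => rfl }
    have hρ' : IrrR ρ' := by
      refine ⟨hρ.1, fun T hT => hρ.2 T fun g w hw => ?_⟩
      exact hT ⟨⟨g.1, Gam_mono hF1F g.2⟩, g.2⟩ w hw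
    exact det_finite H ρ' hρ' σ hσ f hf (fun h w => hfe ⟨h.1.1, h.2⟩ w) m hm fun h => hdet _
  · refine hσl (ringAdj k (s : Set Ω)) R' ?_ hR'F1 ?_ ?_ hl
    · intro x hx
      rw [hs]
      exact ringAdj_sub_fieldAdj _ _ hx
    · exact ringAdj_integral (fun z hz => hSi z (hkS z hz)) fun z hz => hSi z (hsS z hz)
    · exact fun P hP g hg hgF1 => hinF P hP g hgF1 hg

end Pool.Agent.U745.AF
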