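import Pool.Agent.U745.FM.Induct
import Pool.Agent.U745.FM.LineP

set_option autoImplicit false

/-! # Kedlaya's trick over a ring -/

namespace Pool.Agent.U745.AF

open Polynomial Pool.Agent.U745.FM

variable {Ω : Type} [Field Ω]

/-- the trick in characteristic `p`, over a ring `B` which is integral over `R` -/
theorem stepP (p : ℕ) [Fact p.Prime] [CharP Ω p] (B R : Subring Ω)
    (hB : ∀ z ∈ B, IsIntegral R z) (x : Ω) (f : Polynomial B) (hfm : f.Monic) (b y : Ω)
    (hb : (f.map (algebraMap B Ω)).eval x = b) (hb0 : b ≠ 0)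
    (hy : y = x ^ p + x * (b ^ p)⁻¹ + (b ^ (2 * p))⁻¹) (hyB : y ∈ B) :
    IsIntegral R x ∧ IsIntegral R b⁻¹ ∧ (∀ L : Subfield Ω, (∀ z ∈ B, z ∈ L) → IsSeparable L x) ∧
      ∀ P : Ideal (integralClosure R Ω), P.IsPrime → ∀ g : RingAut Ω,
        InInertia R P g → (∀ z ∈ B, g z = z) → g x = x := by
  have hp : p.Prime := Fact.out
  let yB : B := ⟨y, hyB⟩
  let H : Polynomial B := (X ^ p - C yB) * f ^ (2 * p) + (X * f ^ p + 1)
  have hRn : Nontrivial B := inferInstance
  have hHm : H.Monic := by
    have h1 : (X ^ p - C yB : Polynomial B).Monic := monic_X_pow_sub_C _ hp.ne_zero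
    have h2 : ((X ^ p - C yB) * f ^ (2 * p)).Monic := h1.mul (hfm.pow _)
    refine h2.add_of_left ?_
    have h3 : ((X ^ p - C yB) * f ^ (2 * p)).natDegree = p + 2 * p * f.natDegree := by
      rw [h1.natDegree_mul (hfm.pow _), hfm.natDegree_pow, natDegree_X_pow_sub_C]
    have h4 : (X * f ^ p + 1 : Polynomial B).natDegree ≤ 1 + p * f.natDegree := by
      refine (natDegree_add_le _ _).trans ?_
      rw [natDegree_one]
      refine max_le ?_ (Nat.zero_le _)
      refine natDegree_mul_le.trans ?_
      rw [natDegree_X, hfm.natDegree_pow]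
    apply degree_lt_degree
    rw [h3]
    refine lt_of_le_of_lt h4 ?_
    have := hp.two_le
    nlinarith [Nat.zero_le (p * f.natDegree)]
  set HΩ : Polynomial Ω := H.map (algebraMap B Ω) with hHΩ
  have hHΩ' : HΩ = (X ^ p - C y) * (f.map (algebraMap B Ω)) ^ (2 * p) +
      (X * (f.map (algebraMap B Ω)) ^ p + 1) := by
    rw [hHΩ]
    simp only [H, Polynomial.map_add, Polynomial.map_mul, Polynomial.map_sub, Polynomial.map_pow,
      Polynomial.map_X, Polynomial.map_C, Polynomial.map_one]
    rfl
  have hH0 : HΩ.eval x = 0 := by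
    rw [hHΩ']
    simp only [eval_add, eval_mul, eval_sub, eval_pow, eval_X, eval_C, eval_one, hb]
    rw [hy]
    have h2 : b ^ (2 * p) = b ^ p * b ^ p := by rw [two_mul, pow_add]
    rw [h2]
    have h3 : b ^ p ≠ 0 := pow_ne_zero _ hb0
    field_simp
    ring
  have hH1 : HΩ.derivative.eval x = b ^ p := by
    rw [hHΩ']
    have e1 : derivative ((f.map (algebraMap B Ω)) ^ p) = 0 := by
      rw [derivative_pow, CharP.cast_eq_zero Ω p]
      simp
    have e2 : derivative ((f.map (algebraMap B Ω)) ^ (2 * p)) = 0 := by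
      rw [derivative_pow]
      have : ((2 * p : ℕ) : Ω) = 0 := by
        rw [Nat.cast_mul, CharP.cast_eq_zero Ω p, mul_zero]
      rw [this]
      simp
    have e3 : derivative (X ^ p : Polynomial Ω) = 0 := by
      rw [derivative_X_pow, CharP.cast_eq_zero Ω p]
      simp
    rw [derivative_add, derivative_add, derivative_mul, derivative_mul, derivative_sub, e1, e2, e3,
      derivative_C, derivative_X, derivative_one]
    simp [hb]
  have hxB : IsIntegral B x := by
    refine ⟨H, hHm, ?_⟩
    rw [← eval_map]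
    exact hH0
  have hxi : IsIntegral R x := integral_trans hB hxB
  have hbi : IsIntegral R b⁻¹ := by
    have hx2 : IsIntegral B (x ^ p - y) := (hxB.pow p).sub (isIntegral_mem hyB)
    let xC : integralClosure B Ω := ⟨x, hxB⟩
    let zC : integralClosure B Ω := ⟨x ^ p - y, hx2⟩
    have h1 : IsIntegral (integralClosure B Ω) b⁻¹ := by
      refine ⟨X ^ (2 * p) + (C xC * X ^ p + C zC), ?_, ?_⟩
      · refine (monic_X_pow (2 * p)).add_of_left ?_
        rw [degree_X_pow]
        refine lt_of_le_of_lt (degree_add_le _ _) ?_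
        have hp2 := hp.two_le
        refine max_lt ?_ ?_
        · refine lt_of_le_of_lt (degree_C_mul_X_pow_le p xC) ?_
          exact_mod_cast (by omega : p < 2 * p)
        · refine lt_of_le_of_lt degree_C_le ?_
          exact_mod_cast (by omega : 0 < 2 * p)
      · simp only [eval₂_add, eval₂_mul, eval₂_pow, eval₂_X, eval₂_C]
        show (b⁻¹) ^ (2 * p) + (x * (b⁻¹) ^ p + (x ^ p - y)) = 0
        rw [hy]
        have h2 : b ^ (2 * p) = b ^ p * b ^ p := by rw [two_mul, pow_add]
        rw [inv_pow, inv_pow, h2]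
        ring
    exact integral_trans hB (isIntegral_trans _ h1)
  refine ⟨hxi, hbi, fun L hL => ?_, fun P hP g hg hfix => ?_⟩
  · refine separable_of_root HΩ (fun i => ?_) hH0 ?_
    · rw [hHΩ, coeff_map]
      exact hL _ (H.coeff i).2
    · rw [hH1]
      exact pow_ne_zero _ hb0
  refine fixes_of_unit hP hg hxi HΩ ?_ ?_ hH0 ?_ ?_
  · intro i
    rw [hHΩ, coeff_map]
    exact hB _ (H.coeff i).2
  · intro i
    rw [hHΩ, coeff_map]
    exact hfix _ (H.coeff i).2
  · rw [hH1, ← inv_pow]
    exact hbi.pow p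
  · rw [hH1]
    exact pow_ne_zero _ hb0

/-- elements of `k[s, x]` are values of polynomials over `k[s]` -/
theorem exists_poly_ring {k : Subfield Ω} {s : Set Ω} {x a : Ω} (ha : a ∈ ringAdj k (insert x s)) :
    ∃ F : Polynomial (ringAdj k s), (F.map (algebraMap (ringAdj k s) Ω)).eval x = a := by
  have h : ringAdj k (insert x s) ≤
      (eval₂RingHom (algebraMap (ringAdj k s) Ω) x).range := by
    rw [ringAdj_le]
    refine ⟨fun z hz => ⟨C ⟨z, subset_ringAdj _ _ (Or.inl hz)⟩, ?_⟩, fun z hz => ?_⟩
    · show eval₂ _ _ (C _) = z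
      rw [eval₂_C]
      rfl
    · rcases Set.mem_insert_iff.1 hz with rfl | hz
      · refine ⟨X, ?_⟩
        show eval₂ _ _ X = _
        rw [eval₂_X]
      · refine ⟨C ⟨z, subset_ringAdj _ _ (Or.inr hz)⟩, ?_⟩
        show eval₂ _ _ (C _) = z
        rw [eval₂_C]
        rfl
  obtain ⟨F, hF⟩ := h ha
  refine ⟨F, ?_⟩
  rw [eval_map]
  exact hF

theorem range_snoc {n : ℕ} (t : Fin (n + 1) → Ω) :
    Set.range t = insert (t (Fin.last n)) (Set.range fun i : Fin n => t i.castSucc) := by
  ext z
  constructor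
  · rintro ⟨i, rfl⟩
    refine Fin.lastCases ?_ (fun j => ?_) i
    · exact Set.mem_insert _ _
    · exact Set.mem_insert_of_mem _ ⟨j, rfl⟩
  · intro hz
    rcases Set.mem_insert_iff.1 hz with rfl | ⟨j, rfl⟩
    · exact ⟨_, rfl⟩
    · exact ⟨_, rfl⟩

theorem ringAdj_mono {k : Subfield Ω} {s t : Set Ω} (h : s ⊆ t) : ringAdj k s ≤ ringAdj k t := by
  rw [ringAdj_le]
  exact ⟨fun z hz => subset_ringAdj _ _ (Or.inl hz), fun z hz => subset_ringAdj _ _ (Or.inr (h hz))⟩

theorem ringAdj_integral {k : Subfield Ω} {s : Set Ω} {R : Subring Ω} (hk : ∀ z ∈ k, IsIntegral R z)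
    (hs : ∀ z ∈ s, IsIntegral R z) : ∀ z ∈ ringAdj k s, IsIntegral R z := by
  have h : ringAdj k s ≤ (integralClosure R Ω).toSubring := by
    rw [ringAdj_le]
    exact ⟨fun z hz => hk z hz, fun z hz => hs z hz⟩
  exact fun z hz => h hz

theorem ringAdj_fixed {k : Subfield Ω} {s : Set Ω} {g : RingAut Ω} (hk : g ∈ Gam k)
    (hs : ∀ z ∈ s, g z = z) : ∀ z ∈ ringAdj k s, g z = z := by
  intro z hz
  exact (mem_Gam_fieldAdj.2 ⟨hk, hs⟩) z (ringAdj_sub_fieldAdj _ _ hz)

theorem sep_trans {F L : Subfield Ω} (hFL : F ≤ L) (h : ∀ x ∈ L, IsSeparable F x) {x : Ω}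
    (hx : IsSeparable L x) : IsSeparable F x := by
  letI : Algebra F L := (Subfield.inclusion hFL).toAlgebra
  haveI : IsScalarTower F L Ω := IsScalarTower.of_algebraMap_eq fun _ => rfl
  haveI : Algebra.IsSeparable F L := by
    refine ⟨fun y => ?_⟩
    have h1 : IsSeparable F (y : Ω) := h y y.2
    have h2 : minpoly F (y : Ω) = minpoly F y :=
      minpoly.algebraMap_eq (A := F) (B := L) (B' := Ω) (algebraMap L Ω).injective y
    unfold IsSeparable at h1 ⊢
    rwa [h2] at h1
  exact IsSeparable.of_algebra_isSeparable_of_isSeparable F hx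

theorem sep_mono {F L : Subfield Ω} (hFL : F ≤ L) {x : Ω} (hx : IsSeparable F x) :
    IsSeparable L x := by
  letI : Algebra F L := (Subfield.inclusion hFL).toAlgebra
  haveI : IsScalarTower F L Ω := IsScalarTower.of_algebraMap_eq fun _ => rfl
  exact hx.tower_top L

/-- the elements separable over `F` form a field -/
theorem fieldAdj_sep {F k : Subfield Ω} {s : Set Ω} (hk : ∀ x ∈ k, IsSeparable F x)
    (hs : ∀ x ∈ s, IsSeparable F x) : ∀ x ∈ fieldAdj k s, IsSeparable F x := by
  have h : fieldAdj k s ≤ sep F := by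
    rw [fieldAdj_le]
    exact ⟨fun x hx => mem_sep.2 (hk x hx), fun x hx => mem_sep.2 (hs x hx)⟩
  exact fun x hx => mem_sep.1 (h hx)

/-- **the trick in all dimensions** -/
theorem spaceP (p : ℕ) [Fact p.Prime] [CharP Ω p] (k : Subfield Ω) : ∀ (n : ℕ) (t : Fin n → Ω),
    AlgebraicIndependent k t → ∀ a ∈ ringAdj k (Set.range t), a ≠ 0 →
    ∃ y : Fin n → Ω, AlgebraicIndependent k y ∧ (∀ i, y i ∈ fieldAdj k (Set.range t)) ∧
      (∀ i, IsSeparable (fieldAdj k (Set.range y)) (t i)) ∧
      (∀ i, IsIntegral (ringAdj k (Set.range y)) (t i)) ∧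
      IsIntegral (ringAdj k (Set.range y)) a⁻¹ ∧
      ∀ P : Ideal (integralClosure (ringAdj k (Set.range y)) Ω), P.IsPrime → ∀ g : RingAut Ω,
        InInertia (ringAdj k (Set.range y)) P g → g ∈ Gam (fieldAdj k (Set.range y)) →
          ∀ i, g (t i) = t i := by
  intro n
  induction n with
  | zero =>
    intro t ht a ha ha0
    refine ⟨t, ht, fun i => i.elim0, fun i => i.elim0, fun i => i.elim0, ?_,
      fun P hP g _ _ i => i.elim0⟩
    have h1 : Set.range t = ∅ := Set.range_eq_empty t
    have h2 : a ∈ k := by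
      have h3 := ringAdj_sub_fieldAdj _ _ ha
      rw [h1, fieldAdj_empty] at h3
      exact h3
    exact isIntegral_mem (subset_ringAdj _ _ (Or.inl (inv_mem h2)))
  | succ n ih =>
    intro t ht a ha ha0
    obtain ⟨ht', hx⟩ := (indep_last t).1 ht
    set t' : Fin n → Ω := fun i => t i.castSucc with ht'def
    set x : Ω := t (Fin.last n) with hxdef
    rw [range_snoc t] at ha
    obtain ⟨F, hF⟩ := exists_poly_ring ha
    have hF0 : F ≠ 0 := by
      rintro rfl
      rw [Polynomial.map_zero, eval_zero] at hF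
      exact ha0 hF.symm
    set c : Ω := ((F.leadingCoeff : ringAdj k (Set.range t')) : Ω) with hc
    have hc0 : c ≠ 0 := fun h => leadingCoeff_ne_zero.2 hF0 (Subtype.ext h)
    obtain ⟨y', hy'i, hy'F, hy'sep, hy'int, hcint, hin⟩ := ih t' ht' c F.leadingCoeff.2 hc0
    set b : Ω := c⁻¹ * a with hb
    have hb0 : b ≠ 0 := mul_ne_zero (inv_ne_zero hc0) ha0
    set yn : Ω := x ^ p + x * (b ^ p)⁻¹ + (b ^ (2 * p))⁻¹ with hyn
    set y : Fin (n + 1) → Ω := Fin.snoc (α := fun _ => Ω) y' yn with hydef
    have hyc : ∀ i : Fin n, y i.castSucc = y' i := fun i => by simp [hydef]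
    have hyl : y (Fin.last n) = yn := by simp [hydef]
    have hyc' : (fun i : Fin n => y i.castSucc) = y' := funext hyc
    have hry : Set.range y = insert yn (Set.range y') := by
      rw [range_snoc y, hyl, hyc']
    set R := ringAdj k (Set.range y) with hR
    have hR' : ringAdj k (Set.range y') ≤ R := by
      rw [hR, hry]
      exact ringAdj_mono (Set.subset_insert _ _)
    have hR'i : ∀ z ∈ ringAdj k (Set.range y'), IsIntegral R z := fun z hz => isIntegral_mem (hR' hz)
    have hkR : ∀ z ∈ k, IsIntegral R z := fun z hz =>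
      isIntegral_mem (subset_ringAdj _ _ (Or.inl hz))
    have htR : ∀ i, IsIntegral R (t' i) := fun i => integral_trans hR'i (hy'int i)
    have hcR : IsIntegral R c⁻¹ := integral_trans hR'i hcint
    have hynR : yn ∈ R := by
      rw [hR, hry]
      exact subset_ringAdj _ _ (Or.inr (Set.mem_insert _ _))
    set B := ringAdj k (insert yn (insert c⁻¹ (Set.range t'))) with hBdef
    have hB : ∀ z ∈ B, IsIntegral R z := by
      refine ringAdj_integral hkR ?_
      intro z hz
      rcases Set.mem_insert_iff.1 hz with rfl | hz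
      · exact isIntegral_mem hynR
      · rcases Set.mem_insert_iff.1 hz with rfl | ⟨i, rfl⟩
        · exact hcR
        · exact htR i
    have hcB : c⁻¹ ∈ B := subset_ringAdj _ _ (Or.inr (Set.mem_insert_of_mem _ (Set.mem_insert _ _)))
    have hyB : yn ∈ B := subset_ringAdj _ _ (Or.inr (Set.mem_insert _ _))
    have hle : ringAdj k (Set.range t') ≤ B :=
      ringAdj_mono ((Set.subset_insert _ _).trans (Set.subset_insert _ _))
    let f : Polynomial B := C ⟨c⁻¹, hcB⟩ * F.map (Subring.inclusion hle)
    have hfm : f.Monic := by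
      have hinj : Function.Injective (Subring.inclusion hle) := Subring.inclusion_injective hle
      have h1 : f.leadingCoeff = (⟨c⁻¹, hcB⟩ : B) * Subring.inclusion hle F.leadingCoeff := by
        show (C _ * F.map _).leadingCoeff = _
        rw [leadingCoeff_mul, leadingCoeff_C, leadingCoeff_map_of_injective hinj]
      show f.leadingCoeff = 1
      rw [h1]
      apply Subtype.ext
      show c⁻¹ * c = 1
      exact inv_mul_cancel₀ hc0
    have hfb : (f.map (algebraMap B Ω)).eval x = b := by
      show ((C _ * F.map _ : Polynomial B).map (algebraMap B Ω)).eval x = b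
      rw [Polynomial.map_mul, Polynomial.map_C, Polynomial.map_map, eval_mul, eval_C]
      have h1 : (algebraMap B Ω).comp (Subring.inclusion hle) =
          algebraMap (ringAdj k (Set.range t')) Ω := rfl
      rw [h1, hF, hb]
      rfl
    obtain ⟨hxi, hbi, hxs, hxg⟩ := stepP p B R hB x f hfm b yn hfb hb0 hyn hyB
    have htF' : ∀ z ∈ fieldAdj k (Set.range t'), z ∈ fieldAdj k (Set.range t) := by
      have h1 : Set.range t' ⊆ Set.range t := by
        rintro _ ⟨i, rfl⟩
        exact ⟨_, rfl⟩
      exact fun z hz => fieldAdj_mono h1 hz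
    have hxF : x ∈ fieldAdj k (Set.range t) := mem_fieldAdj ⟨_, rfl⟩
    have haF : a ∈ fieldAdj k (Set.range t) := by
      rw [← range_snoc t] at ha
      exact ringAdj_sub_fieldAdj _ _ ha
    have hcF : c ∈ fieldAdj k (Set.range t) :=
      htF' _ (ringAdj_sub_fieldAdj _ _ F.leadingCoeff.2)
    have hbF : b ∈ fieldAdj k (Set.range t) := mul_mem (inv_mem hcF) haF
    have hynF : yn ∈ fieldAdj k (Set.range t) :=
      add_mem (add_mem (pow_mem hxF _) (mul_mem hxF (inv_mem (pow_mem hbF _))))
        (inv_mem (pow_mem hbF _))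
    have hFy : fieldAdj k (Set.range y') ≤ fieldAdj k (Set.range y) := by
      rw [hry]
      exact fieldAdj_mono (Set.subset_insert _ _)
    have ht'sep : ∀ i, IsSeparable (fieldAdj k (Set.range y)) (t' i) := fun i =>
      sep_mono hFy (hy'sep i)
    have hxsep : IsSeparable (fieldAdj k (Set.range y)) x := by
      have h1 : fieldAdj k (Set.range y) ≤ fieldAdj (fieldAdj k (Set.range y)) (Set.range t') :=
        le_fieldAdj _ _
      have hkt : ∀ z ∈ fieldAdj k (Set.range t'), z ∈ fieldAdj (fieldAdj k (Set.range y)) (Set.range t') := by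
        have h2 : fieldAdj k (Set.range t') ≤ fieldAdj (fieldAdj k (Set.range y)) (Set.range t') := by
          rw [fieldAdj_le]
          exact ⟨fun z hz => h1 (le_fieldAdj _ _ hz), fun z hz => mem_fieldAdj hz⟩
        exact fun z hz => h2 hz
      refine sep_trans h1 (fieldAdj_sep (fun z hz => ?_) ?_) (hxs _ ?_)
      · exact isSeparable_algebraMap (F := fieldAdj k (Set.range y)) (K := Ω) ⟨z, hz⟩
      · rintro _ ⟨i, rfl⟩
        exact ht'sep i
      · have h3 : B ≤ (fieldAdj (fieldAdj k (Set.range y)) (Set.range t')).toSubring := by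
          rw [hBdef, ringAdj_le]
          refine ⟨fun z hz => h1 (le_fieldAdj _ _ hz), fun z hz => ?_⟩
          rcases Set.mem_insert_iff.1 hz with rfl | hz
          · refine h1 (mem_fieldAdj ?_)
            rw [hry]
            exact Set.mem_insert _ _
          · rcases Set.mem_insert_iff.1 hz with rfl | hz
            · exact (fieldAdj (fieldAdj k (Set.range y)) (Set.range t')).inv_mem
                (hkt _ (ringAdj_sub_fieldAdj _ _ F.leadingCoeff.2))
            · exact mem_fieldAdj hz
        exact h3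
    refine ⟨y, ?_, ?_, ?_, ?_, ?_, ?_⟩
    · rw [indep_last, hyc', hyl]
      refine ⟨hy'i, ?_⟩
      intro hal
      apply hx
      have hal2 : IsAlgebraic (fieldAdj k (Set.range t')) yn := by
        refine alg_mono ?_ hal
        rw [fieldAdj_le]
        refine ⟨le_fieldAdj _ _, ?_⟩
        rintro _ ⟨i, rfl⟩
        exact hy'F i
      refine alg_trans (L := fieldAdj (fieldAdj k (Set.range t')) {yn}) (fieldAdj_alg ?_)
        (alg_of_ring (R := R) ?_ hxi.isAlgebraic)
      · intro z hz
        rw [Set.mem_singleton_iff.1 hz]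
        exact hal2
      · have : R ≤ (fieldAdj (fieldAdj k (Set.range t')) {yn}).toSubring := by
          rw [hR, ringAdj_le, hry]
          refine ⟨fun z hz => le_fieldAdj _ _ (le_fieldAdj _ _ hz), ?_⟩
          intro z hz
          rcases Set.mem_insert_iff.1 hz with rfl | ⟨i, rfl⟩
          · exact mem_fieldAdj rfl
          · exact le_fieldAdj _ _ (hy'F i)
        exact this
    · intro i
      refine Fin.lastCases ?_ (fun j => ?_) i
      · rw [hyl]
        exact hynF
      · rw [hyc]
        exact htF' _ (hy'F j)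
    · intro i
      refine Fin.lastCases ?_ (fun j => ?_) i
      · exact hxsep
      · exact ht'sep j
    · intro i
      refine Fin.lastCases ?_ (fun j => ?_) i
      · exact hxi
      · exact htR j
    · have h1 : a⁻¹ = c⁻¹ * b⁻¹ := by
        rw [hb, mul_inv, inv_inv]
        field_simp
      rw [h1]
      exact hcR.mul hbi
    · intro P hP g hg hgF
      obtain ⟨hgk, hgy⟩ := mem_Gam_fieldAdj.1 hgF
      have hgy' : ∀ z ∈ Set.range y', g z = z := by
        intro z hz
        apply hgy
        rw [hry]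
        exact Set.mem_insert_of_mem _ hz
      obtain ⟨Q, hQ, hQg⟩ := inertia_mono hR'i hP hg (ringAdj_fixed hgk hgy')
      have h1 := hin Q hQ g hQg (mem_Gam_fieldAdj.2 ⟨hgk, hgy'⟩)
      have h2 : g c = c := by
        refine ringAdj_fixed hgk ?_ c F.leadingCoeff.2
        rintro _ ⟨i, rfl⟩
        exact h1 i
      have h3 : ∀ z ∈ B, g z = z := by
        refine ringAdj_fixed hgk ?_
        intro z hz
        rcases Set.mem_insert_iff.1 hz with rfl | hz
        · apply hgy
          rw [hry]
          exact Set.mem_insert _ _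
        · rcases Set.mem_insert_iff.1 hz with rfl | ⟨i, rfl⟩
          · rw [map_inv₀, h2]
          · exact h1 i
      intro i
      refine Fin.lastCases ?_ (fun j => ?_) i
      · exact hxg P hP g hg h3
      · exact h1 j

end Pool.Agent.U745.AF
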